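import Pool.Agent.N509.TK.Csa

/-!
# Graphs of CSA groups with abelian edge groups and the Farrell-Jones conjecture

`C` is any class of groups with the closure properties `ClosedE C` which contains the metabelian
groups and satisfies `Acyl C`: a finitely generated group that acts on a tree without inversions, such
that for some `k` the pointwise stabilizers of the paths of length at least `k` are trivial, is in `C`
if the vertex stabilizers are in `C`. All this is known for the class of the groups all of whose wreath
products with finite groups satisfy the K- and L-theoretic Farrell-Jones conjecture with coefficients
(`Acyl` is a theorem of Knopf).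

Let `G` act on a tree with vertex stabilizers in `C` and abelian edge stabilizers. Suppose that for every
nontrivial element `x` of the stabilizer of an edge at `v` the centralizer of `x` in the stabilizer `G_v`
is abelian, and that `x` commutes with `g x g⁻¹`, `g` in `G_v`, only if `g` commutes with `x`. Then `G` is
in `C`. This applies if the vertex stabilizers are CSA groups (their maximal abelian subgroups are
malnormal), such as torsion-free hyperbolic groups, limit groups and toral relatively hyperbolic groups.
Neither the edge groups nor the graph have to be finitely generated or finite, and no condition relates
the inclusions of the edge groups in the two vertex groups.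

Outline of the proof. Two edges at a vertex `v` are equivalent if they are equal or their nontrivial
stabilizers commute. The classes generated by this relation are the cylinders. The vertices and the
cylinders form a tree on which the finitely generated subgroups of `G` act acylindrically, so that only
the stabilizers `K` of the cylinders have to be treated; `K` acts on the subtree given by the cylinder.
The elements of `K` which fix a vertex `v` of it are in the centralizer of the edge groups at `v`, which
is abelian, so that `K` is the fundamental group of a graph of abelian groups; this is a special case of
the theorem on trees whose edge groups embed in the abelianizations of the vertex groups.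
-/

set_option autoImplicit false

namespace Pool.Agent.Results.MP_98022b_gt.AbelianEdgeGroups

open Pool.Agent.Y110.FJ (ClosedE)
open Pool.Agent.N509.TK (Acyl)

theorem result (C : ∀ (G : Type) [Group G], Prop) (hC : ClosedE C)
    (hM : ∀ (G : Type) [Group G], derivedSeries G 2 = ⊥ → C G) (hA : Acyl C)
    {G V : Type} [Group G] [MulAction G V] (T : SimpleGraph V) (hT : T.IsTree)
    (hact : ∀ (g : G) (u v : V), T.Adj u v → T.Adj (g • u) (g • v))
    (hV : ∀ v : V, C ↥(MulAction.stabilizer G v))
    (hct : ∀ v u : V, T.Adj v u → ∀ x a b : G, x • v = v → x • u = u → x ≠ 1 → a • v = v →
      b • v = v → a * x = x * a → b * x = x * b → a * b = b * a)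
    (hmal : ∀ v u : V, T.Adj v u → ∀ x g : G, x • v = v → x • u = u → x ≠ 1 → g • v = v →
      x * (g * x * g⁻¹) = g * x * g⁻¹ * x → g * x = x * g)
    (hab : ∀ u v : V, T.Adj u v → ∀ x y : G, x • u = u → x • v = v → y • u = u → y • v = v →
      x * y = y * x) : C G :=
  Pool.Agent.N509.TK.abel hC hM hA hT hact hV hct hmal hab

end Pool.Agent.Results.MP_98022b_gt.AbelianEdgeGroups
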