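import Pool.Agent.N509.SH.Main

/-!
# Artin groups and Shephard groups: reduction to the parabolic subgroups without infinite labels

`C` is any class of groups with the closure properties `ClosedE C` which contains the Coxeter groups
of finite rank. All this is known for the class of the groups whose wreath products with finite groups
satisfy the K- and L-theoretic Farrell-Jones conjecture with coefficients.

Let `M` be any Coxeter matrix, the rank of which may be infinite, and let `p s` be even numbers with
`p s = p t` if `M s t` is odd. The group `Shep M p` is generated by the elements `s` of `S`, with the
braid relations of length `M s t` (none if `M s t` is `0`, which stands for `∞`) and the relations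
`s ^ p s = 1` (none if `p s = 0`). For `p = 0` this is the Artin group of `M`, for `p = 2` the Coxeter
group. The theorem says that `Shep M p` is in `C` if and only if the groups of the finite sets `F` of
generators without infinite labels are in `C`. (The group of `F` is the subgroup generated by `F`, and
this fact is a part of the proof.)

Outline of the proof. Let `W` be the Coxeter group of `M`, `T` a subset of `S`, and `X` the set of the
elements of `W` which are shortest in their left cosets of `W_T`. The generator `s` acts on `X` by left
multiplication, if `s y` is in `X`, and fixes `y` otherwise, and then `s y = y t` for some `t` in `T`.
The pairs of functions `X → Shep T` (`t` at the points `y` of the second kind, and `1` at the others)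
and elements of `W` satisfy the relations, by an argument in the geometric representation of `W`; this
gives a homomorphism from `Shep M p` to the wreath product of the group of `T` with `W`, which is
injective on the group of `T` and the image of which is in `C` if the latter group is. Now, if
`M a b = 0`, `Shep M p` is the amalgamated product of the groups of `S - {a}` and `S - {b}` over the
group of `S - {a, b}`, and it has a homomorphism to a group in `C` which is injective on both factors;
by the theorem of the starting library on such amalgamated products (Y417) it is in `C`. The case of
infinite rank follows with directed colimits.
-/

set_option autoImplicit false

namespace Pool.Agent.Results.MP_98022b_gt.ArtinGroups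

open Pool.Agent.Y110.FJ (ClosedE)
open Pool.Agent.N509.SH (Shep Ord cm inj1)

/-- Let `C` be a class of groups with the closure properties `ClosedE C` which contains all Coxeter
groups of finite rank. For every Coxeter matrix `M`, of finite or infinite rank, the Artin group of `M`
(and likewise each Shephard group of `M` with even orders) is in `C` if and only if all its parabolic
subgroups of finite rank without infinite labels are in `C`. -/
theorem result (C : ∀ (G : Type) [Group G], Prop) (hC : ClosedE C)
    (hW : ∀ (T : Type) [Finite T] (M' : CoxeterMatrix T), C M'.Group)
    {S : Type} (M : CoxeterMatrix S) (p : S → ℕ) (hp : Ord M p) :
    C (Shep M p) ↔ ∀ F : Finset S, (∀ s ∈ F, ∀ t ∈ F, M s t ≠ 0) →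
      C (Shep (cm M _ (inj1 fun s => s ∈ F)) fun t => p t.1) :=
  Pool.Agent.N509.SH.shep_main hC hW hp

end Pool.Agent.Results.MP_98022b_gt.ArtinGroups
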