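import Pool.Agent.N509.OM.Main

/-!
# Graphs of groups with balanced virtually cyclic edge groups and the Farrell-Jones conjecture

`C` is any class of groups with the closure properties `ClosedE C` which contains the metabelian groups
and satisfies `AcylN C`: let `G` be a finitely generated group that acts on a tree without inversions,
with vertex stabilizers in `C`, and let `N` be a normal subgroup which acts trivially, such that the
groups `N ⟨g⟩`, `g ∈ G`, are in `C`; if for some `k` and `n` the pointwise stabilizers of the paths of
length at least `k` have at most `n` elements modulo `N`, then `G` is in `C`. All this is known for the
class of the groups that satisfy the Full Farrell-Jones Conjecture: the theorem of Knopf on acylindrical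
actions on trees says that `G / N` satisfies the conjecture relative to the family of the virtually
cyclic subgroups and the subgroups of the vertex stabilizers, and one can pull this family back to `G`.

Let `G` act on a tree `T` with vertex stabilizers in `C` and virtually cyclic edge stabilizers. Then `G`
is in `C` if each element `x` of infinite order which fixes an edge has one of the following properties
(`Alt C T x`).

* `x` is balanced in `G`: `g x ^ m g⁻¹ = x ^ k` with `m ≠ 0` implies `|m| = |k|`.
* For every vertex `v` of an edge fixed by a power `x ^ n`, `n ≠ 0`, there is a subgroup `A` of the
  stabilizer of `v` which contains the stabilizers of all such edges at `v`, is normalized by the elements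
  of the stabilizer of `v` which conjugate a power `≠ 1` of `x` to a power of `x`, and the commutator
  subgroup of which contains no power `x ^ m`, `m ≠ 0`; and either `x` is balanced in the stabilizer of
  `v`, or `S / (S ∩ A)` embeds in a group in `C` for all groups `S` of such elements.

In particular there is no condition at all on the vertex groups if all elements of the edge groups are
balanced, for instance if `G` contains no quotient of a Baumslag-Solitar group `BS(m, n)`, `|m| ≠ |n|`, in
which the standard generator has infinite order: the amalgamated product `A *_Z B` of two groups in the
class over a cyclic group is in the class if no power of a generator `z` of `Z` is conjugate to another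
power (up to sign) in `A` or in `B`. The second alternative applies to all graphs of torsion-free
nilpotent groups with cyclic edge groups (balanced or not); here `A` is the isolator of `⟨x⟩`.

Outline of the proof. One may assume that `G` is finitely generated and acts with finitely many orbits
of edges. Two edges at a vertex are equivalent if they are equal or the intersection of their
stabilizers is infinite. The classes generated by this relation are the cylinders. The vertices and the
cylinders form a tree on which `G` acts acylindrically, so that only the stabilizers `K` of the cylinders
have to be treated; the edge stabilizers of the cylinder are commensurable with `⟨x⟩`. If `x` is balanced,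
a subgroup of index at most two of `K` consists of elements commuting with powers of `x`. Each finitely
generated subgroup of it has a central subgroup `⟨x ^ n⟩` which acts trivially on an invariant subtree, and
modulo which the edge stabilizers are finite and bounded; so it is in `C` by `AcylN`. In the second case
one obtains a `K`-equivariant family of subgroups `A v` of the vertex stabilizers `K v` containing the
edge stabilizers. Let `N` be the normal subgroup generated by them. The labels of the edges at `v` by the
cosets of `A v` are used to construct homomorphisms from `K` to `K v / A v` which extend the projections
and vanish on `N`. So `N ∩ K v = A v`. The `N`-orbits of vertices form a tree, and `K / N` acts on it with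
trivial edge stabilizers. By `AcylN` one has to treat the groups `N ⟨g⟩` and `N (K v)`. In `N ⟨g⟩` the
powers of `x` are not in `[N, N]`, because rational characters of the groups `A v` extend to `N`, and so
`N ⟨g⟩` is in `C` by the homomorphism to the metabelian group `N ⟨g⟩ / [N, N]`. The groups `N (K v)`
belong to the first case if `x` is balanced in the stabilizer of `v`, and they are extensions of
subgroups of `K v / A v` by `N` in the other case.
-/

set_option autoImplicit false

namespace Pool.Agent.Results.MP_98022b_gt.BalancedEdgeGroups

open Pool.Agent.Y110.FJ (ClosedE)
open Pool.Agent.N509.TX (Inf VC)
open Pool.Agent.N509.OM (AcylN Alt)

theorem result (C : ∀ (G : Type) [Group G], Prop) (hC : ClosedE C)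
    (hM : ∀ (G : Type) [Group G], derivedSeries G 2 = ⊥ → C G) (hA : AcylN C)
    {G V : Type} [Group G] [MulAction G V] (T : SimpleGraph V) (hT : T.IsTree)
    (hact : ∀ (g : G) (u v : V), T.Adj u v → T.Adj (g • u) (g • v))
    (hV : ∀ v : V, C ↥(MulAction.stabilizer G v))
    (hE : ∀ u v : V, T.Adj u v → VC ↥(MulAction.stabilizer G u ⊓ MulAction.stabilizer G v))
    (hx : ∀ v u : V, T.Adj v u → ∀ x : G, x • v = v → x • u = u → Inf x → Alt C T x) : C G :=
  Pool.Agent.N509.OM.alt_vc hC hM hA hT hact hV hE hx

end Pool.Agent.Results.MP_98022b_gt.BalancedEdgeGroups
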