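import Pool.Agent.N509.RF.Fre

/-!
# Kernels which are subdirect products and the Farrell-Jones conjecture

`C` is any class of groups with the closure properties `ClosedE C`, all of which are known for the
class of the groups that satisfy the K- and L-theoretic Farrell-Jones conjecture with coefficients
and finite wreath products. Let `N` be a normal subgroup of `E` with `E / N` in `C`. Each of the
following conditions implies that `E` is in `C`.

(1) `N` has finitely many normal subgroups `K` with trivial intersection, all semidirect products
`(N / K) ⋊ ℤ` are in `C`, and each `K` has only finitely many conjugates in `E` or a prime quotient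
`N / K` (two nontrivial normal subgroups of `N / K` never commute elementwise; for instance
nonelementary torsion-free hyperbolic groups, and acylindrically hyperbolic groups without finite normal
subgroups). So `N` is a subdirect product of the groups `N / K`; there are no finiteness conditions on
`N`, and no conditions on how `N` lies in the product.

(2) `N` has a finitely generated residually `Γ` subgroup of finite index, `Γ` is an equationally
Noetherian family of groups (4), and the semidirect products `L ⋊ ℤ` are in `C` for all finitely
generated fully residually `Γ` groups `L`.

(3) `N` is isomorphic to any subgroup of a product of finitely many free groups (not necessarily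
finitely generated, of any rank), and `C` contains the semidirect products of free groups with `ℤ` and
the metabelian groups.

(4) The families of linear groups of bounded degree over commutative rings are equationally
Noetherian, in particular the free groups of finite rank. In this case the groups `L` of (2) are the
limit groups, so (2) is about all finitely generated residually free groups.

Outline of the proof. A subgroup with prime quotient that contains the intersection of finitely many
normal subgroups contains one of them. So the minimal subgroups with prime quotients are permuted by
the conjugations, unless they contain conjugates of the other subgroups, and a subgroup `A` of finite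
index of `E` normalizes them all. It embeds in the product of the groups `A / K`, which are extensions
by `N / K` of subgroups of `E / N`. In (2) the homomorphisms of a finitely generated group to the
groups of the family are a Noetherian topological space, by the theorem of Alexander on subbases, and
the kernels of its finitely many irreducible components are the minimal normal subgroups with fully
residually `Γ` quotients. For (3) it is shown that nonabelian free groups are prime; the projections
with abelian images are replaced by the quotient of `N` by its commutator subgroup.
-/

set_option autoImplicit false

namespace Pool.Agent.Results.MP_98022b_gt.SubdirectKernels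

open Pool.Agent.Y110.FJ (ClosedE)
open Pool.Agent.N509.RG (CyclicExt)
open Pool.Agent.N509.RF

/-- The subgroup `K` of the normal subgroup `N` of `E` has only finitely many conjugates in `E`. -/
def FinConj {E : Type} [Group E] (N : Subgroup E) [N.Normal] (K : Subgroup N) : Prop :=
  (Set.range fun e : E => K.map (MulAut.conjNormal e : MulAut N).toMonoidHom).Finite

theorem result (C : ∀ (G : Type) [Group G], Prop) (hC : ClosedE C) :
    (∀ (E : Type) [Group E] (N : Subgroup E) [N.Normal] (T : Finset (Subgroup N)),
      (∀ K ∈ T, ∃ _ : K.Normal, (FinConj N K ∨ PrimeGroup (N ⧸ K)) ∧ CyclicExt C (N ⧸ K)) →
      (∀ g : N, (∀ K ∈ T, g ∈ K) → g = 1) → C (E ⧸ N) → C E) ∧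
    (∀ {ι : Type} (Γ : ι → Type) [∀ i, Group (Γ i)], EqNoeth Γ →
      (∀ (L : Type) [Group L] [Group.FG L], FullyRes Γ L → CyclicExt C L) →
      ∀ (E : Type) [Group E] (N : Subgroup E) [N.Normal] (N₀ : Subgroup N) [Group.FG N₀],
        N₀.FiniteIndex → Res Γ N₀ → C (E ⧸ N) → C E) ∧
    ((∀ X : Type, CyclicExt C (FreeGroup X)) →
      (∀ (G : Type) [Group G], derivedSeries G 2 = ⊥ → C G) →
      ∀ (E : Type) [Group E] (N : Subgroup E) [N.Normal] (k : ℕ) (X : Fin k → Type)
        (j : N →* ∀ i, FreeGroup (X i)), Function.Injective j → C (E ⧸ N) → C E) ∧
    (∀ {ι : Type} (Γ : ι → Type) [∀ i, Group (Γ i)] (n : ℕ),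
      (∀ i, ∃ (K : Type) (_ : CommRing K) (σ : Γ i →* Matrix.GeneralLinearGroup (Fin n) K),
        Function.Injective σ) → EqNoeth Γ) ∧
    EqNoeth fun r : ℕ => FreeGroup (Fin r) := by
  refine ⟨fun E _ N _ T hT h1 hQ => ext_subdirect hC N T hT h1 hQ,
    fun Γ _ hΓ hL E _ N _ N₀ _ hfi hR hQ => ?_,
    fun hF hM E _ N _ k X j hj hQ => ext_free_products hC hF hM N k X j hj hQ,
    fun Γ _ n h => eqNoeth_linear Γ n h, eqNoeth_free⟩
  exact Pool.Agent.N509.RG.C_of_normal hC N (cyclicExt_virtually hC hΓ hL N N₀ hfi hR) hQ

end Pool.Agent.Results.MP_98022b_gt.SubdirectKernels
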